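import Mathlib
import Pool.Agent.H217_CF.Prog

/-!
# Progression-free subsets of `F_p^n` decided by `OR ∘ AND ∘ OR_c ∘ (linear equation)` circuits and
polynomials

A `c`-cell of `F_p^n` is the set of solutions of `c` linear equations. A local set `Local c q D` is
given by
* any number of forbidden `c`-cells (the set avoids all of them; this is an AND, of any fan-in, of
  ORs of `c` linear inequations `u · y ≠ b`),
* `q` unions, each of any number of `c`-cells, all of which contain the set, and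
* one polynomial of degree at most `D` over `F_p` which does not vanish on the set.

If `A ⊆ F_p^n` has no nontrivial `k`-term progression and is a union of `m` local sets, then
`|A| ≤ m p^n exp(-((n - (k-1) D / (p-1)) / c - q) / p^c)`. There is no restriction on `k ≤ p`.

Proof. If a local set is dense then a large flat around one of its points meets none of the forbidden
cells (greedy density increment, `Pool.Agent.H217_CF.few`). The product of the shifted polynomials
`f (x + j y)`, `1 ≤ j < k`, and of the indicator function of the directions `y` of the flat has degree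
less than `(p - 1) n` and does not vanish at `y = 0`; as its sum over all `y` is zero it does not vanish
at some `y ≠ 0`.
-/

set_option autoImplicit false

namespace Pool.Agent.Results.MP_b30443_co.LinearCircuits

open Finset MvPolynomial

/-- `A` contains no nontrivial `k`-term progression `x, x + y, …, x + (k - 1) y`, `y ≠ 0`. -/
def ProgressionFree {p n : ℕ} (k : ℕ) (A : Set (Fin n → ZMod p)) : Prop :=
  ∀ x y : Fin n → ZMod p, y ≠ 0 → ¬ ∀ j < k, x + j • y ∈ A

/-- the solutions of `c` linear equations -/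
def Cell {p n : ℕ} (c : ℕ) (B : Set (Fin n → ZMod p)) : Prop :=
  ∃ (u : Fin c → Fin n → ZMod p) (b : Fin c → ZMod p), B = {y | ∀ i, u i ⬝ᵥ y = b i}

/-- Local sets: the points outside of all members of a collection of cells, which lie in some member
of each of `q` further collections of cells, and at which a polynomial of degree at most `D` does not
vanish. -/
def Local {p n : ℕ} (c q D : ℕ) (T : Set (Fin n → ZMod p)) : Prop :=
  ∃ (𝒜 : Set (Set (Fin n → ZMod p))) (ℬ : Fin q → Set (Set (Fin n → ZMod p)))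
    (f : MvPolynomial (Fin n) (ZMod p)),
    (∀ A ∈ 𝒜, Cell c A) ∧ (∀ j, ∀ B ∈ ℬ j, Cell c B) ∧ f.totalDegree ≤ D ∧
      T = {y | (∀ A ∈ 𝒜, y ∉ A) ∧ (∀ j, ∃ B ∈ ℬ j, y ∈ B) ∧ eval y f ≠ 0}

/-- the bound for one local set -/
lemma one {p : ℕ} [Fact p.Prime] {n c q D k : ℕ} (hc : 1 ≤ c) (hk : 1 ≤ k)
    (T : Set (Fin n → ZMod p)) (hT : Local c q D T) (hfree : ProgressionFree k T) :
    (Nat.card T : ℝ) ≤ (p : ℝ) ^ n *
      Real.exp (-((((n : ℝ) - (k - 1) * D / (p - 1)) / c - q) / (p : ℝ) ^ c)) := by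
  have hp := (Fact.out : p.Prime)
  have hp2 : (2 : ℝ) ≤ p := by exact_mod_cast hp.two_le
  have hp1 : (0 : ℝ) < (p : ℝ) - 1 := by linarith
  have hc0 : (0 : ℝ) < c := by exact_mod_cast hc
  have hpn : (0 : ℝ) < (p : ℝ) ^ n := by positivity
  have hpc : (0 : ℝ) < (p : ℝ) ^ c := by positivity
  set y : ℝ := ((n : ℝ) - (k - 1) * D / (p - 1)) / c - q with hy
  have hcard : (Nat.card T : ℝ) ≤ (p : ℝ) ^ n := by
    have h1 : Nat.card T ≤ Nat.card (Fin n → ZMod p) :=
      Nat.card_le_card_of_injective _ Subtype.val_injective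
    rw [Nat.card_eq_fintype_card (α := Fin n → ZMod p), Fintype.card_fun, ZMod.card,
      Fintype.card_fin] at h1
    exact_mod_cast h1
  rcases le_or_gt y 0 with hy0 | hy0
  · have h1 : (1 : ℝ) ≤ Real.exp (-(y / (p : ℝ) ^ c)) := by
      apply Real.one_le_exp
      have : y / (p : ℝ) ^ c ≤ 0 := div_nonpos_of_nonpos_of_nonneg hy0 hpc.le
      linarith
    exact hcard.trans (le_mul_of_one_le_right hpn.le h1)
  · set s : ℕ := ⌈y⌉₊ - 1 with hs
    have hceil : 0 < ⌈y⌉₊ := Nat.ceil_pos.2 hy0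
    have hs1 : s + 1 = ⌈y⌉₊ := by omega
    have hs2 : y ≤ (s : ℝ) + 1 := by
      have := Nat.le_ceil y
      rw [← hs1] at this
      push_cast at this
      exact this
    have hs3 : (s : ℝ) < y := by
      have h1 : s < ⌈y⌉₊ := by omega
      exact Nat.lt_ceil.1 h1
    have hdeg : (k - 1) * D + (p - 1) * (c * (s + q)) < (p - 1) * n := by
      have h1 : (s : ℝ) + q < ((n : ℝ) - (k - 1) * D / (p - 1)) / c := by
        rw [hy] at hs3
        linarith
      rw [lt_div_iff₀ hc0] at h1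
      have h2 : ((k : ℝ) - 1) * D / (p - 1) + (s + q) * c < n := by linarith
      have h3 : ((k : ℝ) - 1) * D + (p - 1) * (c * (s + q)) < (p - 1) * n := by
        have h4 : ((k : ℝ) - 1) * D = (p - 1) * (((k : ℝ) - 1) * D / (p - 1)) := by
          field_simp
        rw [h4]
        have h5 := mul_lt_mul_of_pos_left h2 hp1
        linarith
      have h6 : (((k - 1) * D + (p - 1) * (c * (s + q)) : ℕ) : ℝ) < (((p - 1) * n : ℕ) : ℝ) := by
        have e1 : ((k - 1 : ℕ) : ℝ) = (k : ℝ) - 1 := by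
          rw [Nat.cast_sub hk, Nat.cast_one]
        have e2 : ((p - 1 : ℕ) : ℝ) = (p : ℝ) - 1 := by
          rw [Nat.cast_sub hp.one_lt.le, Nat.cast_one]
        rw [Nat.cast_add, Nat.cast_mul, Nat.cast_mul, Nat.cast_mul, Nat.cast_mul, Nat.cast_add,
          e1, e2]
        exact h3
      exact_mod_cast h6
    obtain ⟨𝒜, ℬ, f, hA, hB, hf, hT'⟩ := hT
    have h1 := Pool.Agent.H217_CF.Prog.small (s := s) 𝒜 ℬ f hf hA hB hT' hfree hdeg
    have h2 : (Nat.card T : ℝ) * ((p : ℝ) ^ c) ^ (s + 1) ≤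
        (p : ℝ) ^ n * ((p : ℝ) ^ c - 1) ^ (s + 1) := by
      have e1 : ((p ^ c - 1 : ℕ) : ℝ) = (p : ℝ) ^ c - 1 := by
        rw [Nat.cast_sub (Nat.one_le_pow _ _ hp.pos)]
        push_cast
        ring
      rw [← e1]
      exact_mod_cast h1
    have h3 : (Nat.card T : ℝ) ≤ (p : ℝ) ^ n * (1 - 1 / (p : ℝ) ^ c) ^ (s + 1) := by
      have hK : (0 : ℝ) < ((p : ℝ) ^ c) ^ (s + 1) := by positivity
      rw [← mul_le_mul_iff_left₀ hK]
      refine h2.trans (le_of_eq ?_)
      rw [mul_assoc, ← mul_pow]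
      congr 2
      field_simp
    have h4 : (1 - 1 / (p : ℝ) ^ c) ^ (s + 1) ≤ Real.exp (-(y / (p : ℝ) ^ c)) := by
      have h5 : (1 - 1 / (p : ℝ) ^ c) ≤ Real.exp (-(1 / (p : ℝ) ^ c)) := by
        have := Real.add_one_le_exp (-(1 / (p : ℝ) ^ c))
        linarith
      have h6 : (0 : ℝ) ≤ 1 - 1 / (p : ℝ) ^ c := by
        rw [sub_nonneg, div_le_one hpc]
        exact one_le_pow₀ (by linarith)
      calc (1 - 1 / (p : ℝ) ^ c) ^ (s + 1) ≤ Real.exp (-(1 / (p : ℝ) ^ c)) ^ (s + 1) :=
            pow_le_pow_left₀ h6 h5 _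
        _ = Real.exp (-((s + 1) / (p : ℝ) ^ c)) := by
            rw [← Real.exp_nat_mul]
            congr 1
            push_cast
            ring
        _ ≤ Real.exp (-(y / (p : ℝ) ^ c)) := by
            apply Real.exp_le_exp.2
            have : y / (p : ℝ) ^ c ≤ (s + 1) / (p : ℝ) ^ c :=
              div_le_div_of_nonneg_right hs2 hpc.le
            linarith
    exact h3.trans (mul_le_mul_of_nonneg_left h4 hpn.le)

/-- **Progression-free sets decided by circuits of depth three over linear equations, and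
polynomials.** Let `p` be a prime and `c, k ≥ 1`.
(1) A set `A ⊆ F_p^n` without nontrivial `k`-term progressions which is a union of `m` local sets with
the parameters `c`, `q`, `D` satisfies
`|A| ≤ m p^n exp(-((n - (k-1) D / (p-1)) / c - q) / p^c)`.
(2) If in addition `(k-1) D ≤ (1 - 2 ε) (p-1) n` and `c q ≤ ε n` then
`|A| ≤ m (p exp(-ε / (c p^c)))^n`. -/
theorem result {p : ℕ} [Fact p.Prime] {n c q D k m : ℕ} (hc : 1 ≤ c) (hk : 1 ≤ k)
    (T : Fin m → Set (Fin n → ZMod p)) (hT : ∀ i, Local c q D (T i))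
    (A : Finset (Fin n → ZMod p)) (hA : (A : Set (Fin n → ZMod p)) = ⋃ i, T i)
    (hfree : ProgressionFree k (A : Set (Fin n → ZMod p))) :
    (A.card : ℝ) ≤ m * (p : ℝ) ^ n *
      Real.exp (-((((n : ℝ) - (k - 1) * D / (p - 1)) / c - q) / (p : ℝ) ^ c)) ∧
    ∀ ε : ℝ, ((k : ℝ) - 1) * D ≤ (1 - 2 * ε) * ((p - 1) * n) → (c : ℝ) * q ≤ ε * n →
      (A.card : ℝ) ≤ m * (p * Real.exp (-(ε / (c * (p : ℝ) ^ c)))) ^ n := by
  classical
  have hp := (Fact.out : p.Prime)
  have hp2 : (2 : ℝ) ≤ p := by exact_mod_cast hp.two_le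
  have hp1 : (0 : ℝ) < (p : ℝ) - 1 := by linarith
  have hc0 : (0 : ℝ) < c := by exact_mod_cast hc
  have hpc : (0 : ℝ) < (p : ℝ) ^ c := by positivity
  have main : (A.card : ℝ) ≤ m * (p : ℝ) ^ n *
      Real.exp (-((((n : ℝ) - (k - 1) * D / (p - 1)) / c - q) / (p : ℝ) ^ c)) := by
    have h1 : A ⊆ (univ : Finset (Fin m)).biUnion (fun i => univ.filter (fun y => y ∈ T i)) := by
      intro y hy
      have h2 : y ∈ (A : Set (Fin n → ZMod p)) := hy
      rw [hA, Set.mem_iUnion] at h2
      obtain ⟨i, hi⟩ := h2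
      rw [mem_biUnion]
      exact ⟨i, mem_univ _, mem_filter.2 ⟨mem_univ _, hi⟩⟩
    have h2 := (card_le_card h1).trans card_biUnion_le
    have h3 : (A.card : ℝ) ≤ ∑ i : Fin m,
        (((univ : Finset (Fin n → ZMod p)).filter (fun y => y ∈ T i)).card : ℝ) := by
      exact_mod_cast h2
    refine h3.trans ?_
    have h4 : ∀ i : Fin m, (((univ : Finset (Fin n → ZMod p)).filter (fun y => y ∈ T i)).card : ℝ)
        ≤ (p : ℝ) ^ n *
          Real.exp (-((((n : ℝ) - (k - 1) * D / (p - 1)) / c - q) / (p : ℝ) ^ c)) := by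
      intro i
      have h5 : ((univ : Finset (Fin n → ZMod p)).filter (fun y => y ∈ T i)).card =
          Nat.card (T i) := by
        rw [← Nat.card_eq_finsetCard]
        exact Nat.card_congr (Equiv.subtypeEquivRight (fun y => by simp))
      rw [h5]
      refine one hc hk (T i) (hT i) ?_
      intro x y hy h6
      refine hfree x y hy (fun j hj => ?_)
      rw [hA]
      exact Set.mem_iUnion_of_mem i (h6 j hj)
    refine (sum_le_sum (fun i _ => h4 i)).trans (le_of_eq ?_)
    rw [sum_const, card_univ, Fintype.card_fin, nsmul_eq_mul]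
    ring
  refine ⟨main, fun ε hD hq => main.trans ?_⟩
  have h1 : Real.exp (-((((n : ℝ) - (k - 1) * D / (p - 1)) / c - q) / (p : ℝ) ^ c)) ≤
      Real.exp (-(ε / (c * (p : ℝ) ^ c))) ^ n := by
    rw [← Real.exp_nat_mul]
    apply Real.exp_le_exp.2
    have h2 : ((k : ℝ) - 1) * D / (p - 1) ≤ (1 - 2 * ε) * n := by
      rw [div_le_iff₀ hp1]
      linarith
    have h3 : ε * n / c ≤ ((n : ℝ) - (k - 1) * D / (p - 1)) / c - q := by
      rw [div_le_iff₀ hc0, sub_mul, div_mul_cancel₀ _ hc0.ne']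
      linarith
    have h4 : ε * n / c / (p : ℝ) ^ c ≤
        (((n : ℝ) - (k - 1) * D / (p - 1)) / c - q) / (p : ℝ) ^ c :=
      div_le_div_of_nonneg_right h3 hpc.le
    have h5 : (n : ℝ) * -(ε / (c * (p : ℝ) ^ c)) = -(ε * n / c / (p : ℝ) ^ c) := by
      field_simp
    rw [h5]
    linarith
  calc (m : ℝ) * (p : ℝ) ^ n *
      Real.exp (-((((n : ℝ) - (k - 1) * D / (p - 1)) / c - q) / (p : ℝ) ^ c))
      ≤ m * (p : ℝ) ^ n * Real.exp (-(ε / (c * (p : ℝ) ^ c))) ^ n := by gcongr
    _ = m * (p * Real.exp (-(ε / (c * (p : ℝ) ^ c)))) ^ n := by rw [mul_pow]; ring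

end Pool.Agent.Results.MP_b30443_co.LinearCircuits
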